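import Mathlib

/-!
For every subfield `F` of `ℝ` with `F ≠ ℚ` (in particular for every real quadratic field) the set
`Δ_5 = {0, e_1, ..., e_5} ⊆ ℤ^5` has a relaxation `{x : A x ≤ b}` with five inequalities whose
coefficients lie in `F`.
-/

namespace Pool.Agent.Results.MP_83f734_co.RcFive

/-- The polyhedron `{x ∈ ℝ^d : A x ≤ b}`. -/
def polyhedron {m d : ℕ} (A : Matrix (Fin m) (Fin d) ℝ) (b : Fin m → ℝ) : Set (Fin d → ℝ) :=
  {x | ∀ i, (A.mulVec x) i ≤ b i}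

/-- The integer points of `ℝ^d` are the vectors `fun j => (z j : ℝ)`, `z ∈ ℤ^d`.
`IsRelaxation F A b X` says: all entries of `A` and `b` lie in the field `F`, and the polyhedron
`{x : A x ≤ b}` has exactly the elements of `X` as its integer points. -/
def IsRelaxation (F : Subfield ℝ) {m d : ℕ} (A : Matrix (Fin m) (Fin d) ℝ) (b : Fin m → ℝ)
    (X : Set (Fin d → ℤ)) : Prop :=
  (∀ i j, A i j ∈ F) ∧ (∀ i, b i ∈ F) ∧
    ∀ z : Fin d → ℤ, (fun j => (z j : ℝ)) ∈ polyhedron A b ↔ z ∈ X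

/-- `Δ_d = {0, e_1, ..., e_d}`. -/
def Delta (d : ℕ) : Set (Fin d → ℤ) := {z | z = 0 ∨ ∃ i, z = Pi.single i 1}

/-- integer points of the perturbed bipyramid -/
theorem key (x y z : ℤ) (e : ℝ) (he : |e| ≤ 1/1000)
    (I1 : 0 ≤ 5 - 3 * (x:ℝ) - 2 * y - z)
    (I2 : 0 ≤ 5 - 3 * (y:ℝ) - 2 * z - x - 4 / 1000 * (y - z))
    (I3 : 0 ≤ 5 - 3 * (z:ℝ) - 2 * x - y - 4 * (e * (z - x)))
    (J1 : 0 ≤ -1 + (x:ℝ) + 2 * y + 3 * z + 4 / 1000 * y + 4 * (e * z))
    (J2 : 0 ≤ -1 + 3 * (x:ℝ) + y + 2 * z + 4 / 1000 * z + 4 * (e * z))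
    (J3 : 0 ≤ -1 + 2 * (x:ℝ) + 3 * y + z + 4 * (e * x) + 4 / 1000 * y) :
    (x = 1 ∧ y = 0 ∧ z = 0) ∨ (x = 0 ∧ y = 1 ∧ z = 0) ∨ (x = 0 ∧ y = 0 ∧ z = 1) ∨
    (x = 1 ∧ y = 1 ∧ z = 0) ∨ (x = 0 ∧ y = 1 ∧ z = 1) ∨ (x = 1 ∧ y = 0 ∧ z = 1) := by
  obtain ⟨m, hx, hy, hz, hm⟩ : ∃ m : ℝ, |(x:ℝ)| ≤ m ∧ |(y:ℝ)| ≤ m ∧ |(z:ℝ)| ≤ m ∧
      (|(x:ℝ)| = m ∨ |(y:ℝ)| = m ∨ |(z:ℝ)| = m) := by
    refine ⟨max |(x:ℝ)| (max |(y:ℝ)| |(z:ℝ)|), le_max_left _ _, ?_, ?_, ?_⟩
    · exact (le_max_left _ _).trans (le_max_right _ _)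
    · exact (le_max_right _ _).trans (le_max_right _ _)
    · rcases max_choice |(x:ℝ)| (max |(y:ℝ)| |(z:ℝ)|) with h | h
      · left; exact h.symm
      · rcases max_choice |(y:ℝ)| |(z:ℝ)| with h' | h'
        · right; left; rw [h, h']
        · right; right; rw [h, h']
  have hm0 : 0 ≤ m := (abs_nonneg _).trans hx
  have b1 : |e * (z:ℝ)| ≤ m / 1000 := by
    rw [abs_mul]
    calc |e| * |(z:ℝ)| ≤ (1/1000) * m := mul_le_mul he hz (abs_nonneg _) (by norm_num)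
      _ = m / 1000 := by ring
  have b2 : |e * (x:ℝ)| ≤ m / 1000 := by
    rw [abs_mul]
    calc |e| * |(x:ℝ)| ≤ (1/1000) * m := mul_le_mul he hx (abs_nonneg _) (by norm_num)
      _ = m / 1000 := by ring
  have e1 : e * ((z:ℝ) - x) = e * z - e * x := by ring
  rw [e1] at I3
  rw [abs_le] at hx hy hz b1 b2
  obtain ⟨hx1, hx2⟩ := hx
  obtain ⟨hy1, hy2⟩ := hy
  obtain ⟨hz1, hz2⟩ := hz
  obtain ⟨b11, b12⟩ := b1
  obtain ⟨b21, b22⟩ := b2
  have hm5 : m ≤ 10 := by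
    rcases hm with h | h | h
    · rcases abs_cases (x:ℝ) with ⟨h1, _⟩ | ⟨h1, _⟩ <;> linarith
    · rcases abs_cases (y:ℝ) with ⟨h1, _⟩ | ⟨h1, _⟩ <;> linarith
    · rcases abs_cases (z:ℝ) with ⟨h1, _⟩ | ⟨h1, _⟩ <;> linarith
  have A1 : (3 * x + 2 * y + z : ℤ) < 6 := by
    have : ((3 * x + 2 * y + z : ℤ) : ℝ) < 6 := by push_cast; linarith
    exact_mod_cast this
  have A2 : (3 * y + 2 * z + x : ℤ) < 6 := by
    have : ((3 * y + 2 * z + x : ℤ) : ℝ) < 6 := by push_cast; linarith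
    exact_mod_cast this
  have A3 : (3 * z + 2 * x + y : ℤ) < 6 := by
    have : ((3 * z + 2 * x + y : ℤ) : ℝ) < 6 := by push_cast; linarith
    exact_mod_cast this
  have B1 : 0 < (x + 2 * y + 3 * z : ℤ) := by
    have : (0:ℝ) < ((x + 2 * y + 3 * z : ℤ) : ℝ) := by push_cast; linarith
    exact_mod_cast this
  have B2 : 0 < (3 * x + y + 2 * z : ℤ) := by
    have : (0:ℝ) < ((3 * x + y + 2 * z : ℤ) : ℝ) := by push_cast; linarith
    exact_mod_cast this
  have B3 : 0 < (2 * x + 3 * y + z : ℤ) := by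
    have : (0:ℝ) < ((2 * x + 3 * y + z : ℤ) : ℝ) := by push_cast; linarith
    exact_mod_cast this
  have hS : z = 1 - x - y ∨ z = 2 - x - y := by omega
  rcases hS with rfl | rfl
  · have hx0 : -1 < x := by omega
    have hx3 : x < 2 := by omega
    interval_cases x <;> omega
  · have hx0 : -1 < x := by omega
    have hx3 : x < 2 := by omega
    interval_cases x <;> omega

/-- the five inequalities in barycentric form force a unit vector -/
theorem core (a1 a2 a3 b1 b2 b3 : ℤ) (e : ℝ) (he : |e| ≤ 1/1000) (hirr : Irrational e)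
    (hsum : a1 + a2 + a3 + b1 + b2 + b3 = 1)
    (U1 : 0 ≤ (1/2 + 1/1000) * (b1:ℝ) + (1/2 + 1/1000 + e) * b2 + (1/2 + e) * b3)
    (U2 : 0 ≤ (1/2) * (a1:ℝ) + (1/2 - 1/1000) * a2 + (1/2 - e) * a3)
    (L1 : 0 ≤ (1/4 + 1/1000) * (a2:ℝ) + (1/2 + e) * a3 + (1/2) * b2 + (1/4) * b3)
    (L2 : 0 ≤ (1/4 + 1/1000 + e) * (a3:ℝ) + (1/2) * a1 + (1/2 + 1/1000) * b3
      + (1/4 - 1/1000) * b1)
    (L3 : 0 ≤ (1/4 + e) * (a1:ℝ) + (1/2 + 1/1000) * a2 + (1/2 + e) * b1 + (1/4 - e) * b2) :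
    (a1 = 1 ∧ a2 = 0 ∧ a3 = 0 ∧ b1 = 0 ∧ b2 = 0 ∧ b3 = 0) ∨
    (a1 = 0 ∧ a2 = 1 ∧ a3 = 0 ∧ b1 = 0 ∧ b2 = 0 ∧ b3 = 0) ∨
    (a1 = 0 ∧ a2 = 0 ∧ a3 = 1 ∧ b1 = 0 ∧ b2 = 0 ∧ b3 = 0) ∨
    (a1 = 0 ∧ a2 = 0 ∧ a3 = 0 ∧ b1 = 1 ∧ b2 = 0 ∧ b3 = 0) ∨
    (a1 = 0 ∧ a2 = 0 ∧ a3 = 0 ∧ b1 = 0 ∧ b2 = 1 ∧ b3 = 0) ∨
    (a1 = 0 ∧ a2 = 0 ∧ a3 = 0 ∧ b1 = 0 ∧ b2 = 0 ∧ b3 = 1) := by
  have hs : (a1:ℝ) + a2 + a3 + b1 + b2 + b3 = 1 := by exact_mod_cast hsum
  -- height
  have irr : ∀ p q : ℤ, (1/1000) * (p:ℝ) + e * q = 0 → p = 0 ∧ q = 0 := by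
    intro p q h
    by_cases hq : q = 0
    · subst hq
      simp at h
      exact ⟨by exact_mod_cast h, rfl⟩
    · exfalso
      apply hirr
      refine ⟨-(p:ℚ) / (1000 * q), ?_⟩
      have hq' : (q:ℝ) ≠ 0 := by exact_mod_cast hq
      push_cast
      field_simp
      linarith
  have K := key (a1 + b1 + b3) (a2 + b1 + b2) (a3 + b2 + b3) e he
    (by push_cast; linarith [U2, L1, hs])
    (by push_cast; linarith [U2, L2, hs])
    (by push_cast; linarith [U2, L3, hs])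
    (by push_cast; linarith [U1, L1, hs])
    (by push_cast; linarith [U1, L2, hs])
    (by push_cast; linarith [U1, L3, hs])
  -- in each case the height is determined
  rcases K with ⟨k1, k2, k3⟩ | ⟨k1, k2, k3⟩ | ⟨k1, k2, k3⟩ | ⟨k1, k2, k3⟩ | ⟨k1, k2, k3⟩ | ⟨k1, k2, k3⟩
  · left
    have r1 : (b1:ℝ) = a3 := by exact_mod_cast (by omega : b1 = a3)
    have r2 : (b2:ℝ) = - a2 - a3 := by exact_mod_cast (by omega : b2 = - a2 - a3)
    have r3 : (b3:ℝ) = a2 := by exact_mod_cast (by omega : b3 = a2)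
    rw [r1, r2, r3] at U1
    rw [r2, r3] at L1
    have := irr a2 a3 (by apply le_antisymm <;> linarith)
    omega
  · right; left
    have r1 : (b1:ℝ) = a3 := by exact_mod_cast (by omega : b1 = a3)
    have r2 : (b2:ℝ) = 1 - a2 - a3 := by exact_mod_cast (by omega : b2 = 1 - a2 - a3)
    have r3 : (b3:ℝ) = a2 - 1 := by exact_mod_cast (by omega : b3 = a2 - 1)
    have r4 : (a1:ℝ) = 1 - a2 - a3 := by exact_mod_cast (by omega : a1 = 1 - a2 - a3)
    rw [r1, r2, r3] at U1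
    rw [r1, r3, r4] at L2
    have := irr (a2 - 1) a3 (by push_cast; apply le_antisymm <;> linarith)
    omega
  · right; right; left
    have r1 : (b1:ℝ) = a3 - 1 := by exact_mod_cast (by omega : b1 = a3 - 1)
    have r2 : (b2:ℝ) = 1 - a2 - a3 := by exact_mod_cast (by omega : b2 = 1 - a2 - a3)
    have r3 : (b3:ℝ) = a2 := by exact_mod_cast (by omega : b3 = a2)
    have r4 : (a1:ℝ) = 1 - a2 - a3 := by exact_mod_cast (by omega : a1 = 1 - a2 - a3)
    rw [r1, r2, r3] at U1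
    rw [r1, r2, r4] at L3
    have := irr a2 (a3 - 1) (by push_cast; apply le_antisymm <;> linarith)
    omega
  · right; right; right; left
    have r2 : (b2:ℝ) = - a2 - a3 := by exact_mod_cast (by omega : b2 = - a2 - a3)
    have r3 : (b3:ℝ) = a2 := by exact_mod_cast (by omega : b3 = a2)
    have r4 : (a1:ℝ) = - a2 - a3 := by exact_mod_cast (by omega : a1 = - a2 - a3)
    rw [r2, r3] at L1
    rw [r4] at U2
    have := irr a2 a3 (by apply le_antisymm <;> linarith)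
    omega
  · right; right; right; right; left
    have r1 : (b1:ℝ) = a3 := by exact_mod_cast (by omega : b1 = a3)
    have r3 : (b3:ℝ) = a2 := by exact_mod_cast (by omega : b3 = a2)
    have r4 : (a1:ℝ) = - a2 - a3 := by exact_mod_cast (by omega : a1 = - a2 - a3)
    rw [r1, r3, r4] at L2
    rw [r4] at U2
    have := irr a2 a3 (by apply le_antisymm <;> linarith)
    omega
  · right; right; right; right; right
    have r1 : (b1:ℝ) = a3 := by exact_mod_cast (by omega : b1 = a3)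
    have r2 : (b2:ℝ) = - a2 - a3 := by exact_mod_cast (by omega : b2 = - a2 - a3)
    have r4 : (a1:ℝ) = - a2 - a3 := by exact_mod_cast (by omega : a1 = - a2 - a3)
    rw [r1, r2, r4] at L3
    rw [r4] at U2
    have := irr a2 a3 (by apply le_antisymm <;> linarith)
    omega

/-- slack of the `i`-th inequality at the vertex `v` of `Δ_5`; vertices ordered
`0 ↔ 100, e_1 ↔ 010, e_2 ↔ 001, e_3 ↔ 110, e_4 ↔ 011, e_5 ↔ 101`. -/
noncomputable def slack (e : ℝ) : Fin 5 → Fin 6 → ℝ :=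
  ![![0, 0, 0, 1/2 + 1/1000, 1/2 + 1/1000 + e, 1/2 + e],
    ![1/2, 1/2 - 1/1000, 1/2 - e, 0, 0, 0],
    ![0, 1/4 + 1/1000, 1/2 + e, 0, 1/2, 1/4],
    ![1/2, 0, 1/4 + 1/1000 + e, 1/4 - 1/1000, 0, 1/2 + 1/1000],
    ![1/4 + e, 1/2 + 1/1000, 0, 1/2 + e, 1/4 - e, 0]]

/-- the matrix: `A i j = slack i 0 - slack i (j+1)` -/
noncomputable def Amat (e : ℝ) : Matrix (Fin 5) (Fin 5) ℝ :=
  fun i j => slack e i 0 - slack e i j.succ

noncomputable def bvec (e : ℝ) : Fin 5 → ℝ := fun i => slack e i 0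

theorem ineq_iff (e : ℝ) (z : Fin 5 → ℤ) (i : Fin 5) :
    ((Amat e).mulVec (fun j => (z j : ℝ))) i ≤ bvec e i ↔
      0 ≤ slack e i 0 * ((1 - z 0 - z 1 - z 2 - z 3 - z 4 : ℤ) : ℝ) + slack e i 1 * z 0
        + slack e i 2 * z 1 + slack e i 3 * z 2 + slack e i 4 * z 3 + slack e i 5 * z 4 := by
  have : ((Amat e).mulVec (fun j => (z j : ℝ))) i =
      (slack e i 0 - slack e i 1) * z 0 + (slack e i 0 - slack e i 2) * z 1 +
      (slack e i 0 - slack e i 3) * z 2 + (slack e i 0 - slack e i 4) * z 3 +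
      (slack e i 0 - slack e i 5) * z 4 := by
    simp only [Matrix.mulVec, dotProduct, Fin.sum_univ_five, Amat]
    rfl
  rw [this, bvec]
  push_cast
  constructor <;> intro h <;> linarith [h]

/-- For every subfield `F` of `ℝ` other than `ℚ` there are a `5 × 5` matrix `A` and a vector `b`
with entries in `F` such that the integer points of `{x ∈ ℝ^5 : A x ≤ b}` are exactly the points of
`Δ_5`. -/
theorem result (F : Subfield ℝ) (hF : F ≠ ⊥) :
    ∃ (A : Matrix (Fin 5) (Fin 5) ℝ) (b : Fin 5 → ℝ), IsRelaxation F A b (Delta 5) := by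
  -- an irrational element of `F`
  obtain ⟨t, htF, htirr⟩ : ∃ t ∈ F, Irrational t := by
    by_contra hcon
    push Not at hcon
    apply hF
    apply le_antisymm _ bot_le
    intro t ht
    have h1 := hcon t ht
    rw [Irrational] at h1
    push Not at h1
    obtain ⟨q, rfl⟩ := h1
    exact SubfieldClass.ratCast_mem ⊥ q
  -- a small one
  obtain ⟨e, heF, heirr, he⟩ : ∃ e ∈ F, Irrational e ∧ |e| ≤ 1/1000 := by
    obtain ⟨q, hq1, hq2⟩ := exists_rat_btwn (show t - 1/1000 < t by linarith)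
    refine ⟨t - q, F.sub_mem htF (SubfieldClass.ratCast_mem F q), htirr.sub_ratCast q, ?_⟩
    rw [abs_le]
    constructor <;> linarith
  have hmem : ∀ i v, slack e i v ∈ F := by
    have hr : ∀ q : ℚ, ((q : ℚ) : ℝ) ∈ F := fun q => SubfieldClass.ratCast_mem F q
    have c1 : (1/2 + 1/1000 : ℝ) ∈ F := by simpa using hr (1/2 + 1/1000)
    have c2 : (1/2 : ℝ) ∈ F := by simpa using hr (1/2)
    have c3 : (1/2 - 1/1000 : ℝ) ∈ F := by simpa using hr (1/2 - 1/1000)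
    have c4 : (1/4 + 1/1000 : ℝ) ∈ F := by simpa using hr (1/4 + 1/1000)
    have c5 : (1/4 : ℝ) ∈ F := by simpa using hr (1/4)
    have c6 : (1/4 - 1/1000 : ℝ) ∈ F := by simpa using hr (1/4 - 1/1000)
    intro i v
    fin_cases i <;> fin_cases v <;>
      simp only [slack] <;>
      first
        | exact F.zero_mem
        | exact c1
        | exact c2
        | exact c3
        | exact c4
        | exact c5
        | exact c6
        | exact F.add_mem c1 heF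
        | exact F.add_mem c2 heF
        | exact F.sub_mem c2 heF
        | exact F.add_mem c4 heF
        | exact F.add_mem c5 heF
        | exact F.sub_mem c5 heF
  refine ⟨Amat e, bvec e, fun i j => F.sub_mem (hmem _ _) (hmem _ _), fun i => hmem _ _, ?_⟩
  have he' := abs_le.1 he
  intro z
  constructor
  · intro hz
    have h := fun i => (ineq_iff e z i).1 (hz i)
    have h0 := h 0
    have h1 := h 1
    have h2 := h 2
    have h3 := h 3
    have h4 := h 4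
    simp only [slack, Matrix.cons_val] at h0 h1 h2 h3 h4
    have C := core (1 - z 0 - z 1 - z 2 - z 3 - z 4) (z 0) (z 1) (z 2) (z 3) (z 4) e he heirr
      (by ring) (by linarith) (by linarith) (by linarith) (by linarith) (by linarith)
    rcases C with C | C | C | C | C | C
    · left
      funext j
      fin_cases j <;> simp [C]
    · right; refine ⟨0, ?_⟩
      funext j
      fin_cases j <;> simp [C]
    · right; refine ⟨1, ?_⟩
      funext j
      fin_cases j <;> simp [C]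
    · right; refine ⟨2, ?_⟩
      funext j
      fin_cases j <;> simp [C]
    · right; refine ⟨3, ?_⟩
      funext j
      fin_cases j <;> simp [C]
    · right; refine ⟨4, ?_⟩
      funext j
      fin_cases j <;> simp [C]
  · intro hz i
    rw [ineq_iff]
    rcases hz with rfl | ⟨j, rfl⟩
    · fin_cases i <;> simp [slack] <;> linarith
    · fin_cases i <;> fin_cases j <;> simp [slack] <;> linarith

end Pool.Agent.Results.MP_83f734_co.RcFive
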